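import Pool.Agent.H629.GC.Stm2

set_option autoImplicit false

open MeasureTheory ProbabilityTheory Set Filter
open scoped ENNReal Topology

/-!
# From truncated first moments to the tail of the limit
-/

namespace Pool.Agent.H707.GC.T3

open Pool.Agent.H629.GC

theorem ex_add (a b : ℝ) : ex (a + b) = ex a * ex b := by
  unfold ex
  rw [Real.exp_add, ENNReal.ofReal_mul (Real.exp_pos a).le]

theorem ex_rpow (a r : ℝ) : ex a ^ r = ex (a * r) := by
  unfold ex
  rw [ENNReal.ofReal_rpow_of_pos (Real.exp_pos a), Real.exp_mul]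

theorem ex_mono {a b : ℝ} (h : a ≤ b) : ex a ≤ ex b :=
  ENNReal.ofReal_le_ofReal (Real.exp_le_exp.2 h)

theorem ex_zero : ex 0 = 1 := by simp [ex]

theorem le_ex (C : ℝ≥0∞) (hC : C ≠ ∞) : ∃ c : ℝ, C ≤ ex c := by
  refine ⟨C.toReal, ?_⟩
  rw [← ENNReal.ofReal_toReal hC]
  refine ENNReal.ofReal_le_ofReal ?_
  have := Real.add_one_le_exp C.toReal
  rw [ENNReal.toReal_ofReal ENNReal.toReal_nonneg]
  linarith

variable {Ω : Type} [MeasurableSpace Ω]

/-- Hölder -/
theorem step1 (P : Measure Ω) {f : Ω → ℝ≥0∞} (hf : Measurable f)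
    {r b c : ℝ} (hr : 1 < r) (τ : ℝ≥0∞) (h1 : ∫⁻ ω, f ω ^ r ∂P ≤ ex c)
    (h2 : ex b ≤ ∫⁻ ω in {ω | τ ≤ f ω}, f ω ∂P) :
    ex ((b - c / r) * (r / (r - 1))) ≤ P {ω | τ ≤ f ω} := by
  have hE : MeasurableSet {ω | τ ≤ f ω} := measurableSet_le measurable_const hf
  have hr0 : 0 < r := by linarith
  have hr1 : 0 < r - 1 := by linarith
  have hr' : 0 < r / (r - 1) := by positivity
  have hconj : r.HolderConjugate (r / (r - 1)) := Real.HolderConjugate.conjExponent hr
  have hh := ENNReal.lintegral_mul_le_Lp_mul_Lq P hconj hf.aemeasurable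
    (g := {ω | τ ≤ f ω}.indicator fun _ => (1 : ℝ≥0∞))
    ((measurable_const.indicator hE).aemeasurable)
  have e1 : (f * {ω | τ ≤ f ω}.indicator fun _ => (1 : ℝ≥0∞)) = {ω | τ ≤ f ω}.indicator f := by
    funext ω
    by_cases h : ω ∈ {ω | τ ≤ f ω}
    · simp only [Pi.mul_apply, indicator_of_mem h, mul_one]
    · simp only [Pi.mul_apply, indicator_of_notMem h, mul_zero]
  have e2 : (fun ω => ({ω | τ ≤ f ω}.indicator (fun _ => (1 : ℝ≥0∞)) ω) ^ (r / (r - 1))) =
      {ω | τ ≤ f ω}.indicator fun _ => (1 : ℝ≥0∞) := by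
    funext ω
    by_cases h : ω ∈ {ω | τ ≤ f ω}
    · simp only [indicator_of_mem h, ENNReal.one_rpow]
    · simp only [indicator_of_notMem h, ENNReal.zero_rpow_of_pos hr']
  rw [e1, lintegral_indicator hE] at hh
  simp only [e2] at hh
  rw [lintegral_indicator hE, lintegral_const, one_mul, Measure.restrict_apply_univ] at hh
  have h3 : ex b ≤ ex (c / r) * P {ω | τ ≤ f ω} ^ (1 / (r / (r - 1))) := by
    refine (h2.trans hh).trans (mul_le_mul_left ?_ _)
    rw [← mul_one_div c r, ← ex_rpow]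
    exact ENNReal.rpow_le_rpow h1 (by positivity)
  have h4 : ex (b - c / r) ≤ P {ω | τ ≤ f ω} ^ (1 / (r / (r - 1))) := by
    calc ex (b - c / r) = ex (-(c / r)) * ex b := by rw [← ex_add]; congr 1; ring
      _ ≤ ex (-(c / r)) * (ex (c / r) * P {ω | τ ≤ f ω} ^ (1 / (r / (r - 1)))) :=
          mul_le_mul_right h3 _
      _ = P {ω | τ ≤ f ω} ^ (1 / (r / (r - 1))) := by
          rw [← mul_assoc, ← ex_add, neg_add_cancel, ex_zero, one_mul]
  calc ex ((b - c / r) * (r / (r - 1))) = ex (b - c / r) ^ (r / (r - 1)) := (ex_rpow _ _).symm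
    _ ≤ (P {ω | τ ≤ f ω} ^ (1 / (r / (r - 1)))) ^ (r / (r - 1)) :=
        ENNReal.rpow_le_rpow h4 hr'.le
    _ = P {ω | τ ≤ f ω} := by
        rw [← ENNReal.rpow_mul, one_div_mul_cancel hr'.ne', ENNReal.rpow_one]

/-- reverse Fatou -/
theorem step2 (P : Measure Ω) [IsProbabilityMeasure P] {M : ℕ → Ω → ℝ≥0∞} {M' : Ω → ℝ≥0∞}
    (hM : ∀ n, Measurable (M n))
    (hlim : ∀ᵐ ω ∂P, Tendsto (fun n => M n ω) atTop (𝓝 (M' ω))) (τ c : ℝ≥0∞) (k : ℕ)
    (h : ∀ n, k ≤ n → c ≤ P {ω | τ ≤ M n ω}) : c ≤ P {ω | τ ≤ M' ω} := by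
  have hE : ∀ n, MeasurableSet {ω | τ ≤ M n ω} := fun n => measurableSet_le measurable_const (hM n)
  have h1 : Tendsto (fun N => P (⋃ n : ℕ, ⋃ _ : N ≤ n, {ω | τ ≤ M n ω})) atTop
      (𝓝 (P (⋂ N : ℕ, ⋃ n : ℕ, ⋃ _ : N ≤ n, {ω | τ ≤ M n ω}))) := by
    refine tendsto_measure_iInter_atTop (fun N => ?_) ?_ ⟨0, measure_ne_top P _⟩
    · exact (MeasurableSet.iUnion fun n => MeasurableSet.iUnion fun _ => hE n).nullMeasurableSet
    · intro N N' hN ω hω
      simp only [mem_iUnion] at hω ⊢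
      obtain ⟨n, hn, hω⟩ := hω
      exact ⟨n, hN.trans hn, hω⟩
  have h2 : c ≤ P (⋂ N : ℕ, ⋃ n : ℕ, ⋃ _ : N ≤ n, {ω | τ ≤ M n ω}) := by
    refine ge_of_tendsto' h1 fun N => (h (max N k) (le_max_right _ _)).trans (measure_mono ?_)
    intro ω hω
    simp only [mem_iUnion]
    exact ⟨max N k, le_max_left _ _, hω⟩
  refine h2.trans (measure_mono_ae ?_)
  filter_upwards [hlim] with ω hω
  intro hmem
  have hmem' : ∀ N : ℕ, ∃ n : ℕ, N ≤ n ∧ τ ≤ M n ω := by
    intro N
    have := mem_iInter.1 hmem N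
    simp only [mem_iUnion] at this
    obtain ⟨n, hn, h'⟩ := this
    exact ⟨n, hn, h'⟩
  by_contra hcon
  have hlt : M' ω < τ := not_le.1 hcon
  obtain ⟨N, hN⟩ := eventually_atTop.1 (hω.eventually_lt_const hlt)
  obtain ⟨n, hn, hle⟩ := hmem' N
  exact absurd hle (not_le.2 (hN n hn))

/-- the choice of the exponents -/
theorem choice {q v e : ℝ} (hq : 0 < q) (hv : 0 < v) (he : 0 < e) :
    ∃ f r : ℝ, 0 < f ∧ f < v ∧ 1 < r ∧ r < 1 + q ∧
      (r / (r - 1)) * ((v + f) * q) / (v - f) < 1 + q + e := by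
  have hA : 0 < q + 1 + e / 2 := by positivity
  have h2 : 0 < 2 * (4 * (q + 1 + e / 2) + e) := by positivity
  have hfv : e * v / (2 * (4 * (q + 1 + e / 2) + e)) < v := by
    rw [div_lt_iff₀ h2]
    nlinarith [mul_pos he hv, mul_pos hA hv]
  refine ⟨e * v / (2 * (4 * (q + 1 + e / 2) + e)), 1 + q / (1 + e / 2), by positivity, hfv,
    ?_, ?_, ?_⟩
  · have : 0 < q / (1 + e / 2) := by positivity
    linarith
  · have : q / (1 + e / 2) < q := div_lt_self hq (by linarith)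
    linarith
  · rw [div_lt_iff₀ (by linarith)]
    have h3 : (1 + q / (1 + e / 2)) / (1 + q / (1 + e / 2) - 1) * q = q + 1 + e / 2 := by
      have h4 : 1 + q / (1 + e / 2) - 1 = q / (1 + e / 2) := by ring
      rw [h4]
      field_simp
      ring
    have h5 : (1 + q / (1 + e / 2)) / (1 + q / (1 + e / 2) - 1) *
        ((v + e * v / (2 * (4 * (q + 1 + e / 2) + e))) * q) =
        (q + 1 + e / 2) * (v + e * v / (2 * (4 * (q + 1 + e / 2) + e))) := by
      rw [← h3]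
      ring
    rw [h5]
    have h6 : e * v / (2 * (4 * (q + 1 + e / 2) + e)) * (2 * (4 * (q + 1 + e / 2) + e)) = e * v :=
      div_mul_cancel₀ _ h2.ne'
    generalize e * v / (2 * (4 * (q + 1 + e / 2) + e)) = f at *
    nlinarith [mul_pos he hv]

theorem t_T3 : S_T3 := by
  intro Ω _ P hP M M' hM hlim s D q v hs hst hq hv hmom hlow e he
  obtain ⟨f, r, hf0, hfv, hr1, hrq, hlt⟩ := choice hq hv he
  obtain ⟨C₁, hC₁, hmom'⟩ := hmom r hr1 hrq
  obtain ⟨c, hc⟩ := le_ex C₁ hC₁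
  obtain ⟨C, σ, hlow'⟩ := hlow f hf0
  have ha : 0 < v - f := by linarith
  have hr' : 0 < r / (r - 1) := div_pos (by linarith) (by linarith)
  -- the lower bound at the level `k`
  have hk : ∀ k, σ ≤ s k → ex ((-C - (v + f) * q * s k - c / r) * (r / (r - 1))) ≤
      P {ω | ex ((v - f) * s k - 1) ≤ M' ω} := fun k hk =>
    step2 P hM hlim _ _ k fun n hn =>
      step1 P (hM n) hr1 _ ((hmom' n).trans hc) (hlow' k n hn hk)
  -- the inequality for large `t`
  have hlog : ∀ᶠ t : ℝ in atTop, -((-C - c / r) * (r / (r - 1)) -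
      (r / (r - 1)) * ((v + f) * q) * (1 / (v - f) + D)) /
      (1 + q + e - (r / (r - 1)) * ((v + f) * q) / (v - f)) ≤ Real.log t :=
    Real.tendsto_log_atTop.eventually_ge_atTop _
  have hlog2 : ∀ᶠ t : ℝ in atTop, (v - f) * σ - 1 ≤ Real.log t :=
    Real.tendsto_log_atTop.eventually_ge_atTop _
  have hlog3 : ∀ᶠ t : ℝ in atTop, (v - f) * s 0 - 1 ≤ Real.log t :=
    Real.tendsto_log_atTop.eventually_ge_atTop _
  filter_upwards [hlog, hlog2, hlog3, eventually_gt_atTop (0 : ℝ)] with t ht1 ht2 ht3 ht0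
  have hex : ∃ k, Real.log t < (v - f) * s k - 1 := by
    have h1 : Tendsto (fun k => (v - f) * s k - 1) atTop atTop :=
      tendsto_atTop_add_const_right _ (-1) (hst.const_mul_atTop ha)
    exact (h1.eventually_gt_atTop (Real.log t)).exists
  classical
  obtain ⟨k, hk1, hk2⟩ : ∃ k, Real.log t < (v - f) * s k - 1 ∧
      ∀ j, j < k → ¬ Real.log t < (v - f) * s j - 1 :=
    ⟨Nat.find hex, Nat.find_spec hex, fun j hj => Nat.find_min hex hj⟩
  have hk0 : k ≠ 0 := by
    rintro rfl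
    linarith
  obtain ⟨j, rfl⟩ := Nat.exists_eq_succ_of_ne_zero hk0
  have hj := not_lt.1 (hk2 j (Nat.lt_succ_self j))
  have hsj := hs j
  have hsk : s (j + 1) ≤ (Real.log t + 1) / (v - f) + D := by
    have : s j ≤ (Real.log t + 1) / (v - f) := by
      rw [le_div_iff₀ ha]
      linarith
    linarith
  have hσ : σ ≤ s (j + 1) := by
    have : (v - f) * σ ≤ (v - f) * s (j + 1) := by
      have := hk1
      simp only [Nat.succ_eq_add_one] at this
      linarith
    exact le_of_mul_le_mul_left this ha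
  have hmain := hk (j + 1) hσ
  have hsub : P {ω | ex ((v - f) * s (j + 1) - 1) ≤ M' ω} ≤ P {ω | ENNReal.ofReal t < M' ω} := by
    refine measure_mono fun ω hω => ?_
    have hω' : ex ((v - f) * s (j + 1) - 1) ≤ M' ω := hω
    refine lt_of_lt_of_le ?_ hω'
    unfold ex
    rw [ENNReal.ofReal_lt_ofReal_iff (Real.exp_pos _), ← Real.log_lt_iff_lt_exp ht0]
    exact hk1
  refine le_trans ?_ (hmain.trans hsub)
  have e1 : ENNReal.ofReal (t ^ (-(1 + q + e))) = ex (Real.log t * (-(1 + q + e))) := by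
    unfold ex
    rw [Real.rpow_def_of_pos ht0]
  rw [e1]
  refine ex_mono ?_
  have hden : 0 < 1 + q + e - (r / (r - 1)) * ((v + f) * q) / (v - f) := by linarith
  rw [div_le_iff₀ hden] at ht1
  have hA : 0 < (r / (r - 1)) * ((v + f) * q) := by positivity
  have h7 : (r / (r - 1)) * ((v + f) * q) * s (j + 1) ≤
      (r / (r - 1)) * ((v + f) * q) * ((Real.log t + 1) / (v - f) + D) :=
    mul_le_mul_of_nonneg_left hsk hA.le
  have h8 : (r / (r - 1)) * ((v + f) * q) * ((Real.log t + 1) / (v - f) + D) =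
      (r / (r - 1)) * ((v + f) * q) / (v - f) * Real.log t +
      (r / (r - 1)) * ((v + f) * q) * (1 / (v - f) + D) := by
    field_simp
    ring
  rw [h8] at h7
  have h9 : (-C - (v + f) * q * s (j + 1) - c / r) * (r / (r - 1)) =
      (-C - c / r) * (r / (r - 1)) - (r / (r - 1)) * ((v + f) * q) * s (j + 1) := by ring
  rw [h9]
  linarith

end Pool.Agent.H707.GC.T3
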